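import Pool.Agent.H.MP_b29b59_lc.B

set_option autoImplicit false

namespace Pool.Agent.Results.MP_b29b59_lc.Yes

open FirstOrder FirstOrder.Language Cardinal Filter Set
open Pool.Agent.H.MP_b29b59_lc Pool.Agent.Lib.helper21.RN

/-- The language with a single unary predicate symbol. -/
def LU : FirstOrder.Language.{0, 0} := ⟨fun _ => Empty, fun n => PLift (n = 1)⟩

/-- The unary predicate symbol is interpreted as `U`. -/
@[reducible] def strU {M : Type} (U : Set M) : LU.Structure M where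
  funMap f := Empty.elim f
  RelMap _ x := ∀ i, x i ∈ U

/-- The complete theory of the expansion `(M, U)`. -/
def expTh (L : FirstOrder.Language.{0, 0}) (M : Type) [L.Structure M] (U : Set M) : (L.sum LU).Theory :=
  letI := strU U
  (L.sum LU).completeTheory M

/-- Weak o-minimality. -/
def WOM (L : FirstOrder.Language.{0, 0}) (M : Type) [LinearOrder M] [L.Structure M] : Prop :=
  ∀ S : Set M, (univ : Set M).Definable₁ L S →
    ∃ C : Set (Set M), C.Finite ∧ (∀ c ∈ C, c.OrdConnected) ∧ S = ⋃₀ C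

def Inv {α : Type} (S : Set (α → X)) : Prop := ∀ g, G g → ∀ x ∈ S, g ∘ x ∈ S

def L0 : FirstOrder.Language.{0, 0} := ⟨fun _ => Empty, fun n => {S : Set (Fin n → X) // Inv S}⟩

instance : L0.Structure X where
  funMap f := Empty.elim f
  RelMap r x := x ∈ r.1

instance (n : ℕ) : Finite (L0.Relations n) := by
  obtain ⟨κ, _, c, h⟩ := oligo (Fin n)
  have k : ∀ S T : L0.Relations n, c '' S.1 = c '' T.1 → S.1 ⊆ T.1 := fun S T e x hx => by
    obtain ⟨y, hy, l⟩ : c x ∈ c '' T.1 := e ▸ mem_image_of_mem _ hx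
    obtain ⟨g, h1, h2⟩ := h _ _ l
    exact (funext h2 : g ∘ y = x) ▸ T.2 g h1 y hy
  exact .of_injective (fun S : L0.Relations n => c '' S.1) fun S T e =>
    Subtype.ext ((k S T e).antisymm (k T S e.symm))

instance : Countable L0.Symbols :=
  inferInstanceAs (Countable ((Σ _, Empty) ⊕ Σ n, L0.Relations n))

instance : Countable (L0.sum LU).Symbols :=
  inferInstanceAs (Countable ((Σ _, Empty ⊕ Empty) ⊕ Σ n, L0.Relations n ⊕ PLift (n = 1)))

instance : L0.IsOrdered := ⟨⟨{x | x 0 ≤ x 1}, fun g _ _ h => g.monotone h⟩⟩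

instance : L0.OrderedStructure X := ⟨fun _ => .rfl⟩

theorem aut {g : X ≃o X} (h : G g) {α : Type} (φ : L0.Formula α) (x : α → X) :
    φ.Realize (g ∘ x) ↔ φ.Realize x :=
  StrongHomClass.realize_formula (⟨g.toEquiv, fun f => Empty.elim f, fun r x =>
    ⟨fun k => show x ∈ r.1 by simpa [Function.comp_def] using r.2 _ h.inv _ k, r.2 _ h _⟩⟩ : X ≃[L0] X) φ

theorem form {α : Type} [Finite α] {S : Set (α → X)} (h : Inv S) :
    ∃ φ : L0.Formula α, ∀ x, φ.Realize x ↔ x ∈ S := by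
  obtain ⟨n, ⟨e⟩⟩ := Finite.exists_equiv_fin α
  refine ⟨Relations.formula (n := n) ⟨{y | y ∘ e ∈ S}, fun g k y l => h g k _ l⟩
    fun i => .var (e.symm i), fun x => ?_⟩
  rw [Formula.realize_rel]
  change (fun i => x (e.symm (e i))) ∈ S ↔ _
  simp

theorem cat0 : Categorical (ℵ₀ : Cardinal.{0}) (L0.completeTheory X) :=
  cat_of_atomic fun α _ => by
    obtain ⟨κ, _, c, h⟩ := oligo α
    choose θ hθ using fun k => form (S := {x | ∃ y, c y = k ∧ ∃ g, G g ∧ g ∘ y = x}) (by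
      rintro g hg _ ⟨y, a, g', b, rfl⟩
      exact ⟨y, a, g * g', hg.mul b, rfl⟩)
    refine ⟨κ, ‹_›, θ, fun x => ⟨c x, (hθ _ _).2 ⟨x, rfl, 1, .one, rfl⟩⟩, fun k x x' a b φ l => ?_⟩
    obtain ⟨y, a1, g, hg, rfl⟩ := (hθ _ _).1 a
    obtain ⟨y', b1, g', hg', rfl⟩ := (hθ _ _).1 b
    obtain ⟨f, hf, e⟩ := h _ _ (a1.trans b1.symm)
    rw [aut hg', ← (funext e : f ∘ y = y'), aut hf]
    exact (aut hg _ _).1 l

theorem wom : WOM L0 X := fun S hS => by
  obtain ⟨A, -, h2⟩ := definable_iff_finitely_definable.1 hS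
  obtain ⟨φ, hφ⟩ := definable_iff_exists_formula_sum.1 h2
  have inv : ∀ g, G g → (∀ a : (A : Set X), g a = a) → ∀ x ∈ S, g x ∈ S := fun g hg h x hx => by
    have := (aut hg φ _).2 ((Set.ext_iff.1 hφ fun _ => x).1 hx)
    refine (Set.ext_iff.1 hφ fun _ => g x).2 ?_
    rwa [show g ∘ Sum.elim Subtype.val (fun _ => x) = Sum.elim Subtype.val fun _ : Fin 1 => g x from
      funext fun i => by cases i <;> simp [h] ] at this
  obtain ⟨κ, _, c, h⟩ := oligo (Option (A : Set X))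
  refine ⟨range fun k => {z | ∃ x ∈ S, c (fun o => o.elim x (↑)) = k ∧
    ∃ g, G g ∧ (∀ a : (A : Set X), g a = a) ∧ g x = z}, finite_range _, ?_, ?_⟩
  · rintro _ ⟨k, rfl⟩
    refine ⟨?_⟩
    rintro _ ⟨x, a1, a2, g, a3, a4, rfl⟩ _ ⟨y, b1, b2, g', b3, b4, rfl⟩ z hz
    obtain ⟨f, f1, f2⟩ := h _ _ (a2.trans b2.symm)
    have f3 : f x = y := f2 none
    have f4 : ∀ a : (A : Set X), f a = a := fun a => f2 (some a)
    obtain ⟨p, p1, p2, p3⟩ := conv0 _ _ (fun a : (A : Set X) => a.1) (sm_card _)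
      (g' * f * g⁻¹) ((b3.mul f1).mul a3.inv) (fun a => by
        conv_lhs => rw [← a4 a]
        simp [f4, b4]) (g x) z (by simpa [f3] using Icc_subset_uIcc hz)
    exact ⟨x, a1, a2, p * g, p1.mul a3, fun a => by simp [a4, p2], p3⟩
  · refine subset_antisymm (fun x hx => ⟨_, ⟨_, rfl⟩, x, hx, rfl, 1, .one, fun _ => rfl, rfl⟩) ?_
    rintro _ ⟨_, ⟨k, rfl⟩, x, a1, -, g, a3, a4, rfl⟩
    exact inv g a3 a4 x a1

theorem result : ∃ (L : FirstOrder.Language.{0, 0}) (_ : Countable L.Symbols) (_ : L.IsOrdered) (M : Type)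
    (_ : LinearOrder M) (_ : L.Structure M) (_ : L.OrderedStructure M), #M = ℵ₀ ∧ WOM L M ∧
      Categorical (ℵ₀ : Cardinal.{0}) (L.completeTheory M) ∧
      ∃ U : Set M, U.OrdConnected ∧ ¬Categorical (ℵ₀ : Cardinal.{0}) (expTh L M U) := by
  obtain ⟨U, ψ, u1, ⟨a0, u2⟩, u3, u4, u5, u6, u7, u8⟩ := exists_cut
  refine ⟨L0, inferInstance, inferInstance, X, inferInstance, inferInstance, inferInstance,
    mk_eq_aleph0 X, wom, cat0, U, u1.ordConnected, fun hc => ?_⟩
  let _ := strU U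
  have dU : ∀ (α : Type) (i : α), (∅ : Set X).Definable (L0.sum LU) {a : α → X | a i ∈ U} :=
    fun α i => empty_definable_iff.2 ⟨Relations.formula (n := 1) (Sum.inr ⟨rfl⟩) fun _ => .var i, by
      ext a
      rw [mem_setOf_eq, mem_setOf_eq, Formula.realize_rel]
      exact ⟨fun h _ => h, fun h => h 0⟩⟩
  have dI : ∀ (α : Type) [Finite α] (S : Set (α → X)), Inv S → (∅ : Set X).Definable (L0.sum LU) S :=
    fun α _ S h => by
      obtain ⟨φ, hφ⟩ := form h
      exact (empty_definable_iff.2 ⟨φ, Set.ext fun x => (hφ x).symm⟩).map_expansion LHom.sumInl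
  have d : ∀ (n : ℕ) (α : Type) [Finite α] (S : Set (α → X)), Inv S →
      (∅ : Set X).Definable (L0.sum LU) {a | (∀ i, a i ∈ U) ∧ ψ n ∘ a ∈ S} := fun n => by
    induction n with
    | zero =>
      intro α _ S h
      simpa [u3, setOf_and, setOf_forall] using (definable_iInter_of_finite (dU α)).inter (dI α S h)
    | succ n ih =>
      intro α _ S h
      have d1 := ih (α ⊕ Unit) {b | (∀ i, b (.inl i) ≠ b (.inr ())) ∧
          (fun i => v (b (.inl i)) (b (.inr ()))) ∈ S} fun g hg b hb => by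
        obtain ⟨g1, k1, k2⟩ := hg.down
        exact ⟨fun i => g.injective.ne (hb.1 i), by
          simpa [Function.comp_def, k2 _ _ (hb.1 _)] using h g1 k1 _ hb.2⟩
      have d2 := ((dU (α ⊕ Unit) (.inr ())).inter (((dU ((α ⊕ Unit) ⊕ Unit) (.inr ())).inter
        (dI ((α ⊕ Unit) ⊕ Unit) {b | b (.inl (.inr ())) ≤ b (.inr ())} fun g _ _ h => g.monotone h)).himp
          (d1.preimage_comp (Sum.map .inl id))).forall_of_finite).exists_of_finite
      have ev : ∀ a : α → X, (∀ i, a i ∈ U) → ∃ u ∈ U, ∀ i, ψ (n + 1) (a i) < ψ (n + 1) u :=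
        fun a ha => by
          choose u b1 b2 using fun i => u7 (n + 1) _ (ha i)
          obtain ⟨m, m1, m2⟩ := exists_max_image (insert a0 (range u)) id
            ((finite_range u).insert _) (insert_nonempty _ _)
          have : m ∈ U := m1.elim (· ▸ u2) fun ⟨i, e⟩ => e ▸ b1 i
          exact ⟨m, this, fun i => (b2 i).trans_le (u5 _ (b1 i) this (m2 _ (.inr ⟨i, rfl⟩)))⟩
      refine (congrArg _ (Set.ext fun a => ?_)).mp d2
      simp only [mem_setOf_eq, mem_inter_iff, Sum.elim_inr, himp_eq, sup_eq_union, mem_union,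
        mem_compl_iff, mem_preimage, Sum.forall, Function.comp, Sum.map_inl, Sum.map_inr, id,
        Sum.elim_inl, or_comm (b := ¬_), ← imp_iff_not_or]
      constructor
      · rintro ⟨u, b1, b2⟩
        have ha := (b2 u ⟨b1, le_rfl⟩).1.1
        obtain ⟨m, m1, m2⟩ := ev a ha
        have m3 : max (u ()) m ∈ U := by rcases max_choice (u ()) m with e | e <;> rwa [e]
        refine ⟨ha, (congrArg (· ∈ S) (funext fun i => ?_)).mp (b2 (fun _ => max (u ()) m)
          ⟨m3, le_max_left _ _⟩).2.2⟩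
        exact (u8 n _ (ha i) _ m3 ((m2 i).trans_le (u5 _ m1 m3 (le_max_right _ _)))).symm
      · rintro ⟨ha, hs⟩
        obtain ⟨m, m1, m2⟩ := ev a ha
        refine ⟨fun _ => m, m1, fun u hu => ?_⟩
        have m3 := fun i => (m2 i).trans_le (u5 _ m1 hu.1 hu.2)
        exact ⟨⟨ha, fun _ => hu.1⟩, fun i e => (m3 i).ne (u6 _ _ _ e),
          (congrArg (· ∈ S) (funext fun i => u8 n _ (ha i) _ hu.1 (m3 i))).mp hs⟩
  choose b b1 b2 using fun n => u7 n a0 u2
  obtain ⟨x, hx⟩ := real hc (hyperfilter ℕ) fun n (i : Bool) => cond i a0 (b n)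
  obtain ⟨n, hn⟩ := u4 (x true) (x false)
  obtain ⟨φ, hφ⟩ := empty_definable_iff.1 (d n Bool {y | y true ≠ y false}
    fun g _ _ h => g.injective.ne h)
  refine ((Set.ext_iff.1 hφ x).2 ((hx φ).2 (Nat.hyperfilter_le_atTop ?_))).2 hn
  filter_upwards [eventually_ge_atTop n] with s hs
  refine (Set.ext_iff.1 hφ _).1 ⟨by simp [u2, b1], fun e => (b2 s).ne ?_⟩
  exact Nat.le_induction (P := fun m _ => ψ m a0 = ψ m (b s)) e (fun m _ => u6 m _ _) s hs

end Pool.Agent.Results.MP_b29b59_lc.Yes
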